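import Pool.Agent.Run7.h47.V.Iface
import Pool.Agent.Run7.h47.Pos
import Pool.Agent.Run7.h47.Rs2

/-! PIECE SC of project VI (MP_1906c1_mp): the approximate equation for the diagonal entry. -/

set_option autoImplicit false
set_option linter.unusedSectionVars false

open scoped BigOperators Topology
open MeasureTheory Filter

namespace Pool.Agent.Run7.h298.VI

open Pool.Agent.W788.MFP.Four Pool.Agent.W788.MFP.Form Pool.Agent.W788.MFP.Dos
open Pool.Agent.Run7.h47 Pool.Agent.Run7.h47.V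

variable {d L : ℕ} [NeZero L]

theorem GG_eq (ζ : ℂ) :
    GG ζ (0 : T d L) 0 = (NN d L : ℂ)⁻¹ * ∑ k : T d L, ((adj k : ℂ) - ζ)⁻¹ := by
  unfold GG Kc gs
  simp only [Matrix.of_apply, sub_self]
  congr 1
  refine Finset.sum_congr rfl fun k _ => ?_
  have : e k (0 : T d L) = 1 := by
    unfold e
    simp
  rw [this, mul_one]

theorem inv_im' (z : ℂ) : (z⁻¹).im = -z.im / ‖z‖ ^ 2 := by
  rw [Complex.inv_im, Complex.normSq_eq_norm_sq]

theorem NNc (f : T d L → ℂ) : ((NN d L : ℂ)⁻¹ * ∑ k : T d L, f k).im =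
    (NN d L)⁻¹ * ∑ k : T d L, (f k).im := by
  rw [← Complex.ofReal_inv, Complex.im_ofReal_mul, Complex.im_sum]

theorem NNn (f : T d L → ℂ) : ‖(NN d L : ℂ)⁻¹ * ∑ k : T d L, f k‖ ≤
    (NN d L)⁻¹ * ∑ k : T d L, ‖f k‖ := by
  have h := NN_pos (d := d) (L := L)
  rw [← Complex.ofReal_inv, norm_mul, Complex.norm_real, Real.norm_of_nonneg (by positivity)]
  gcongr
  exact norm_sum_le _ _

theorem GG_im (ζ : ℂ) : (GG ζ (0 : T d L) 0).im =
    (NN d L)⁻¹ * ∑ k : T d L, ζ.im / ‖(adj k : ℂ) - ζ‖ ^ 2 := by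
  rw [GG_eq, NNc]
  congr 1
  refine Finset.sum_congr rfl fun k _ => ?_
  rw [inv_im']
  simp

/-- pointwise, first case -/
theorem ptA {a Y : ℝ} {z y : ℂ} (hY : 0 < Y) (hz : Y ≤ z.im) (hy : ‖y‖ ≤ Y) (hy' : y.im ≤ 0) :
    (|a - z.re| + z.im) / 4 ≤ ‖(a : ℂ) - z + y‖ ∧ ‖(a : ℂ) - z + y‖ ≤ 2 * ‖(a : ℂ) - z‖ ∧
      0 < ‖(a : ℂ) - z‖ ∧ ‖((a : ℂ) - z + y)⁻¹ - ((a : ℂ) - z)⁻¹‖ ≤
        4 * (Y / z.im) * (z.im / ‖(a : ℂ) - z‖ ^ 2) ∧
      z.im / ‖(a : ℂ) - z‖ ^ 2 / 4 ≤ (((a : ℂ) - z + y)⁻¹).im := by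
  have e1 : ((a : ℂ) - z).re = a - z.re := by simp
  have e2 : ((a : ℂ) - z).im = -z.im := by simp
  have hzp : 0 < z.im := hY.trans_le hz
  have a1 : |a - z.re| ≤ ‖(a : ℂ) - z + y‖ + Y := by
    have h1 := Complex.abs_re_le_norm ((a : ℂ) - z + y)
    have h2 := Complex.abs_re_le_norm y
    rw [Complex.add_re, e1] at h1
    have h3 : |a - z.re| ≤ |a - z.re + y.re| + |y.re| := by
      have := abs_add_le (a - z.re + y.re) (-y.re)
      rw [abs_neg] at this
      simpa using this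
    linarith
  have a2 : z.im ≤ ‖(a : ℂ) - z + y‖ := by
    have h1 := Complex.abs_im_le_norm ((a : ℂ) - z + y)
    rw [Complex.add_im, e2] at h1
    have h2 := neg_abs_le (-z.im + y.im)
    linarith
  have a3 : z.im ≤ ‖(a : ℂ) - z‖ := by
    have h1 := Complex.abs_im_le_norm ((a : ℂ) - z)
    rw [e2, abs_neg, abs_of_pos hzp] at h1
    exact h1
  have a4 : ‖(a : ℂ) - z‖ ≤ |a - z.re| + z.im := by
    have h1 := Complex.norm_le_abs_re_add_abs_im ((a : ℂ) - z)
    rw [e1, e2, abs_neg, abs_of_pos hzp] at h1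
    exact h1
  have a5 : 0 < ‖(a : ℂ) - z‖ := hzp.trans_le a3
  have a6 : 0 < ‖(a : ℂ) - z + y‖ := hzp.trans_le a2
  have a7 : ‖(a : ℂ) - z + y‖ ≤ 2 * ‖(a : ℂ) - z‖ := by
    have := norm_add_le ((a : ℂ) - z) y
    linarith
  refine ⟨by linarith, a7, a5, ?_, ?_⟩
  · have h1 : ((a : ℂ) - z + y)⁻¹ - ((a : ℂ) - z)⁻¹ =
        -y / (((a : ℂ) - z + y) * ((a : ℂ) - z)) := by
      have n1 : (a : ℂ) - z + y ≠ 0 := norm_pos_iff.1 a6
      have n2 : (a : ℂ) - z ≠ 0 := norm_pos_iff.1 a5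
      field_simp
      ring
    rw [h1, norm_div, norm_neg, norm_mul]
    have h2 : 4 * (Y / z.im) * (z.im / ‖(a : ℂ) - z‖ ^ 2) = Y / (‖(a : ℂ) - z‖ / 4 * ‖(a : ℂ) - z‖) := by
      field_simp
    rw [h2]
    gcongr
    linarith
  · rw [inv_im', Complex.add_im, e2, div_div]
    have h1 : ‖(a : ℂ) - z + y‖ ^ 2 ≤ ‖(a : ℂ) - z‖ ^ 2 * 4 := by
      have := pow_le_pow_left₀ a6.le a7 2
      linarith [this]
    have h2 : 0 < ‖(a : ℂ) - z + y‖ ^ 2 := by positivity
    have h3 : z.im ≤ -(-z.im + y.im) := by linarith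
    have h4 : 0 ≤ -(-z.im + y.im) := by linarith
    gcongr

/-- pointwise, second case -/
theorem ptB {a Y x c₃ : ℝ} {z y : ℂ} (hY : 0 < Y) (hx : 0 < x) (hc : 0 < c₃) (hz0 : 0 ≤ z.im)
    (hz : z.im < Y) (hy : ‖y‖ ≤ Y) (hy' : y.im ≤ 0) (hYx : 2 * Y ≤ x)
    (h : x ≤ |a - z.re| ∨ c₃ * Y ≤ -y.im) :
    min (1 / 4) (c₃ / 3) * (|a - z.re| + Y) ≤ ‖(a : ℂ) - z + y‖ ∧
      0 < ‖(a : ℂ) - z + y‖ ∧
      c₃ / 18 * (Y / ((a - z.re) ^ 2 + Y ^ 2) - 2 * (Y / x) * (x / ((a - z.re) ^ 2 + x ^ 2))) ≤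
        (((a : ℂ) - z + y)⁻¹).im := by
  have e1 : ((a : ℂ) - z).re = a - z.re := by simp
  have e2 : ((a : ℂ) - z).im = -z.im := by simp
  have a1 : |a - z.re| ≤ ‖(a : ℂ) - z + y‖ + Y := by
    have h1 := Complex.abs_re_le_norm ((a : ℂ) - z + y)
    have h2 := Complex.abs_re_le_norm y
    rw [Complex.add_re, e1] at h1
    have h3 : |a - z.re| ≤ |a - z.re + y.re| + |y.re| := by
      have := abs_add_le (a - z.re + y.re) (-y.re)
      rw [abs_neg] at this
      simpa using this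
    linarith
  have a2 : -y.im ≤ ‖(a : ℂ) - z + y‖ := by
    have h1 := Complex.abs_im_le_norm ((a : ℂ) - z + y)
    rw [Complex.add_im, e2] at h1
    have h2 := neg_abs_le (-z.im + y.im)
    linarith
  have hm1 : min (1 / 4) (c₃ / 3) ≤ 1 / 4 := min_le_left _ _
  have hm2 : min (1 / 4) (c₃ / 3) ≤ c₃ / 3 := min_le_right _ _
  have hm0 : 0 < min (1 / 4) (c₃ / 3) := lt_min (by norm_num) (by positivity)
  have hA := abs_nonneg (a - z.re)
  have b1 : min (1 / 4) (c₃ / 3) * (|a - z.re| + Y) ≤ ‖(a : ℂ) - z + y‖ := by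
    rcases le_or_gt (2 * Y) |a - z.re| with h1 | h1
    · have h2 : min (1 / 4) (c₃ / 3) * (|a - z.re| + Y) ≤ 1 / 4 * (|a - z.re| + Y) :=
        mul_le_mul_of_nonneg_right hm1 (by linarith)
      linarith
    · rcases h with h | h
      · linarith
      · have h2 : min (1 / 4) (c₃ / 3) * (|a - z.re| + Y) ≤ c₃ / 3 * (|a - z.re| + Y) :=
          mul_le_mul_of_nonneg_right hm2 (by linarith)
        have h3 : c₃ / 3 * (|a - z.re| + Y) ≤ c₃ / 3 * (3 * Y) := by
          apply mul_le_mul_of_nonneg_left _ (by positivity)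
          linarith
        linarith
  have b2 : 0 < ‖(a : ℂ) - z + y‖ := lt_of_lt_of_le (by positivity) b1
  refine ⟨b1, b2, ?_⟩
  have hnn : 0 ≤ (((a : ℂ) - z + y)⁻¹).im := by
    rw [inv_im', Complex.add_im, e2]
    apply div_nonneg _ (by positivity)
    linarith
  have hD : 0 < (a - z.re) ^ 2 + x ^ 2 := by positivity
  have hsub : 0 ≤ 2 * (Y / x) * (x / ((a - z.re) ^ 2 + x ^ 2)) := by positivity
  rcases h with h | h
  · refine le_trans ?_ hnn
    apply mul_nonpos_of_nonneg_of_nonpos (by positivity)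
    have h1 : x ^ 2 ≤ (a - z.re) ^ 2 := by
      rw [← sq_abs (a - z.re)]
      exact pow_le_pow_left₀ hx.le h 2
    have h2 : 0 < (a - z.re) ^ 2 := lt_of_lt_of_le (by positivity) h1
    have h3 : Y / ((a - z.re) ^ 2 + Y ^ 2) ≤ Y / (a - z.re) ^ 2 := by
      gcongr
      have := sq_nonneg Y
      linarith
    have h4 : 2 * (Y / x) * (x / ((a - z.re) ^ 2 + x ^ 2)) = 2 * Y / ((a - z.re) ^ 2 + x ^ 2) := by
      field_simp
    have h5 : Y / (a - z.re) ^ 2 ≤ 2 * Y / ((a - z.re) ^ 2 + x ^ 2) := by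
      rw [div_le_div_iff₀ h2 hD]
      nlinarith
    linarith
  · have g1 : ‖(a : ℂ) - z + y‖ ≤ 3 * (|a - z.re| + Y) := by
      have h1 := Complex.norm_le_abs_re_add_abs_im ((a : ℂ) - z)
      rw [e1, e2, abs_neg, abs_of_nonneg hz0] at h1
      have := norm_add_le ((a : ℂ) - z) y
      linarith
    have g2 : ‖(a : ℂ) - z + y‖ ^ 2 ≤ 18 * ((a - z.re) ^ 2 + Y ^ 2) := by
      have h1 := pow_le_pow_left₀ b2.le g1 2
      have h2 : |a - z.re| ^ 2 = (a - z.re) ^ 2 := sq_abs _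
      nlinarith [sq_nonneg (|a - z.re| - Y)]
    have g3 : c₃ / 18 * (Y / ((a - z.re) ^ 2 + Y ^ 2)) ≤ (((a : ℂ) - z + y)⁻¹).im := by
      rw [inv_im', Complex.add_im, e2]
      have h1 : c₃ / 18 * (Y / ((a - z.re) ^ 2 + Y ^ 2)) =
          c₃ * Y / (18 * ((a - z.re) ^ 2 + Y ^ 2)) := by
        field_simp
      rw [h1]
      have h2 : 0 < ‖(a : ℂ) - z + y‖ ^ 2 := by positivity
      have h3 : c₃ * Y ≤ -(-z.im + y.im) := by linarith
      gcongr
      have : 0 < c₃ * Y := by positivity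
      linarith
    have g4 : 0 ≤ c₃ / 18 * (2 * (Y / x) * (x / ((a - z.re) ^ 2 + x ^ 2))) := by positivity
    linarith

theorem er2_lim (d : ℕ) {η ε : ℝ} (hη : 0 < η) (hε : 0 < ε) :
    ∃ L₀ : ℕ, ∀ L : ℕ, L₀ ≤ L → Q.er2 d L η ≤ ε := by
  have h1 : Tendsto (fun L : ℕ => Q.er2 d L η) atTop (𝓝 0) := by
    unfold Q.er2
    have t1 : Tendsto (fun L : ℕ => ((1 : ℝ) / 2) ^ L) atTop (𝓝 0) :=
      tendsto_pow_atTop_nhds_zero_of_lt_one (by norm_num) (by norm_num)
    have t2 : Tendsto (fun L : ℕ => Real.exp (-(η * L / 128))) atTop (𝓝 0) := by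
      apply Real.tendsto_exp_neg_atTop_nhds_zero.comp
      have : Tendsto (fun L : ℕ => (η / 128) * (L : ℝ)) atTop atTop :=
        tendsto_natCast_atTop_atTop.const_mul_atTop (by positivity)
      refine this.congr fun L => by ring
    have t3 := ((t1.const_mul 64).const_mul (d : ℝ)).const_mul 2 |>.div_const (η / 2)
    have t4 := (t2.const_mul 32).div_const (η / 2)
    have t5 := t3.add t4
    simpa using t5
  have h2 := (h1.eventually (gt_mem_nhds hε))
  obtain ⟨L₀, h3⟩ := eventually_atTop.1 h2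
  exact ⟨L₀, fun L hL => (h3 L hL).le⟩

theorem green' (hd : 3 ≤ d) {E Y : ℝ} (h1 : 1 / (L : ℝ) ≤ Y) (h2 : Y ≤ 1 / 2) {c : ℝ}
    (hc : 0 < c) {f : T d L → ℝ} {W : T d L → ℝ} {ε : ℝ} (hf0 : ∀ k, 0 ≤ f k)
    (hf : ∀ k, f k * gg Y ≤ ε)
    (hW : ∀ k, c * J E Y k ≤ W k) :
    (NN d L)⁻¹ * ∑ k : T d L, f k / W k ≤ ε / c := by
  have hL : (0 : ℝ) < L := by exact_mod_cast Nat.pos_of_ne_zero (NeZero.ne L)
  have hY : 0 < Y := lt_of_lt_of_le (by positivity) h1
  have hg := gg_pos Y hY h2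
  have hG : (NN d L)⁻¹ * ∑ k : T d L, (J E Y k)⁻¹ ≤ gg Y := green d hd E Y h1 h2
  have hN := NN_pos (d := d) (L := L)
  have hε : 0 ≤ ε := (mul_nonneg (hf0 0) hg.le).trans (hf 0)
  calc (NN d L)⁻¹ * ∑ k : T d L, f k / W k
      ≤ (NN d L)⁻¹ * ∑ k : T d L, (ε / gg Y / c) * (J E Y k)⁻¹ := by
        gcongr with k
        have hJ := J_pos E Y hY k
        have h3 : f k ≤ ε / gg Y := by
          rw [le_div_iff₀ hg]
          exact hf k
        calc f k / W k ≤ (ε / gg Y) / (c * J E Y k) := by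
              have : 0 < c * J E Y k := by positivity
              have h4 := hW k
              gcongr
          _ = _ := by field_simp
    _ = (ε / gg Y / c) * ((NN d L)⁻¹ * ∑ k : T d L, (J E Y k)⁻¹) := by
        rw [← Finset.mul_sum]
        ring
    _ ≤ (ε / gg Y / c) * gg Y := by gcongr
    _ = ε / c := by field_simp

theorem J_le' (E Y : ℝ) (hY : 0 < Y) (k : T d L) : J E Y k ≤ |adj k - E| + Y := by
  unfold J
  rw [Real.sqrt_le_left (by positivity)]
  have := sq_abs (adj k - E)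
  nlinarith [abs_nonneg (adj k - E)]

theorem sc : S_SC := by
  intro d hd a ha ha2
  obtain ⟨ca, hca, hm⟩ := mJ_unif hd a ha2
  set K0 : ℝ := |2 * (72 * C32)| with hK0
  have hK0' : 0 ≤ K0 := abs_nonneg _
  set K1 : ℝ := |3 * 72 * C54| with hK1
  have hK1' : 0 ≤ K1 := abs_nonneg _
  set C₀ : ℝ := 5 * (1 + K0) + 4 with hC₀
  have hC₀1 : 1 ≤ C₀ := by linarith
  set ε₁ : ℝ := (ca / (4 * (K1 + 1))) ^ 4 with hε₁
  have hε₁0 : 0 < ε₁ := by positivity
  have hd3 : (3 : ℝ) ≤ d := by exact_mod_cast hd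
  set R : ℝ := 4 * d + 2 + 2 * C₀ with hR
  have hR0 : 0 < R := by positivity
  set c₁ : ℝ := min (ca / 2) (ε₁ / 2 / R ^ 2) with hc₁
  have hc₁0 : 0 < c₁ := lt_min (by positivity) (by positivity)
  refine ⟨C₀, c₁ / 8, 2 * C₀ + 1, hC₀1, by positivity, by positivity, fun c₃ hc₃ => ?_⟩
  set cm : ℝ := min (1 / 4) (c₃ / 3) with hcm
  have hcm0 : 0 < cm := lt_min (by norm_num) (by positivity)
  set B : ℝ := 1 + 1 / cm + c₃ / 9 * (1 + K0) with hB
  have hB0 : 0 < B := by positivity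
  set ε₀ : ℝ := min (1 / 4) (min (ε₁ / (8 * C₀)) (min (c₁ / 32) (c₃ * ca / 72 / B))) with hε₀
  have hε₀0 : 0 < ε₀ := by
    refine lt_min (by norm_num) (lt_min (by positivity) (lt_min (by positivity) (by positivity)))
  have q1 : ε₀ ≤ 1 / 4 := min_le_left _ _
  have q2 : ε₀ ≤ ε₁ / (8 * C₀) := (min_le_right _ _).trans (min_le_left _ _)
  have q3 : ε₀ ≤ c₁ / 32 := (min_le_right _ _).trans ((min_le_right _ _).trans (min_le_left _ _))
  have q4 : ε₀ ≤ c₃ * ca / 72 / B :=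
    (min_le_right _ _).trans ((min_le_right _ _).trans (min_le_right _ _))
  refine ⟨ε₀, hε₀0, fun x Y hx hxε hY hYε => ?_⟩
  obtain ⟨L₁, hL₁⟩ := er2_lim d hY (lt_min one_pos (by positivity : (0 : ℝ) < ca / 4))
  refine ⟨max L₁ ⌈1 / Y⌉₊, fun L _ hL E τ hE hτ hτ2 X hX hXim hsh m r hm0 hm1 hr hmeq => ?_⟩
  have hL0 : (0 : ℝ) < L := by exact_mod_cast Nat.pos_of_ne_zero (NeZero.ne L)
  have hLY : 1 / (L : ℝ) ≤ Y := by
    rw [div_le_iff₀ hL0]
    have h1 : 1 / Y ≤ L := (Nat.le_ceil _).trans (by exact_mod_cast (le_max_right _ _).trans hL)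
    rw [div_le_iff₀ hY] at h1
    linarith
  have her : Q.er2 d L Y ≤ min 1 (ca / 4) := hL₁ L ((le_max_left _ _).trans hL)
  have hx1 : x ≤ 1 / 4 := hxε.trans q1
  have hxx : x ^ 2 ≤ ε₀ := by
    have h1 := mul_le_mul_of_nonneg_right (hx1.trans (by norm_num) : x ≤ 1) hx.le
    rw [sq]
    linarith
  have hxx0 : 0 < x ^ 2 := by positivity
  have hYx : Y ≤ ε₀ * x ^ 2 := hYε
  have hYx4 : Y ≤ x ^ 2 / 4 := by
    have h1 := mul_le_mul_of_nonneg_right q1 hxx0.le
    linarith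
  have hYe : Y ≤ ε₀ := by
    have h1 := mul_le_mul_of_nonneg_left (by linarith : x ^ 2 ≤ 1) hε₀0.le
    linarith
  have hY2 : Y ≤ 1 / 2 := by linarith
  have hN := NN_pos (d := d) (L := L)
  -- bounds for the free resolvent
  have er_anti : ∀ η : ℝ, Y ≤ η → Q.er2 d L η ≤ min 1 (ca / 4) := fun η hη =>
    (Q.er2_anti hY hη).trans her
  have F0 : ∀ ζ : ℂ, Y ≤ ζ.im → ‖GG ζ (0 : T d L) 0‖ ≤ 1 + K0 := fun ζ hζ => by
    have h1 := Q.free0 hd L (ζ := ζ) (hY.trans_le hζ)
    have h2 := (er_anti _ hζ).trans (min_le_left _ _)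
    have h3 := le_abs_self (2 * (72 * C32))
    linarith
  have F1 : ∀ ζ : ℂ, Y ≤ ζ.im → ‖ζ - E‖ ≤ ε₁ → ca / 2 ≤ (GG ζ (0 : T d L) 0).im :=
    fun ζ hζ hζE => by
      have h1 := Q.free1_im hd L (ζ := ζ) (hY.trans_le hζ) E
      have h2 := (er_anti _ hζ).trans (min_le_right _ _)
      have h3 := le_abs_self (3 * 72 * C54)
      have h4 : ‖ζ - E‖ ^ (1 / 4 : ℝ) ≤ ca / (4 * (K1 + 1)) := by
        calc ‖ζ - E‖ ^ (1 / 4 : ℝ) ≤ ε₁ ^ (1 / 4 : ℝ) :=
              Real.rpow_le_rpow (norm_nonneg _) hζE (by norm_num)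
          _ = ca / (4 * (K1 + 1)) := by
              rw [hε₁, ← Real.rpow_natCast, ← Real.rpow_mul (by positivity)]
              norm_num
      have h5 : 3 * 72 * C54 * ‖ζ - E‖ ^ (1 / 4 : ℝ) ≤ ca / 4 := by
        calc 3 * 72 * C54 * ‖ζ - E‖ ^ (1 / 4 : ℝ) ≤ K1 * (ca / (4 * (K1 + 1))) := by
              apply mul_le_mul h3 h4 (by positivity) hK1'
          _ ≤ ca / 4 := by
              rw [mul_div_assoc', div_le_div_iff₀ (by positivity) (by norm_num)]
              have e1 : ca * (4 * (K1 + 1)) = K1 * ca * 4 + 4 * ca := by ring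
              rw [e1]
              linarith
      have h6 := hm E hE
      have h7 := (abs_le.1 h1).1
      linarith
  -- notation
  set z : ℂ := E + τ * Complex.I + x ^ 2 * m with hz
  have hx2 : ((x : ℂ) ^ 2) = ((x ^ 2 : ℝ) : ℂ) := by push_cast; rfl
  have zre : z.re = E + x ^ 2 * m.re := by
    rw [hz, hx2, Complex.add_re, Complex.re_ofReal_mul]
    simp
  have zim : z.im = τ + x ^ 2 * m.im := by
    rw [hz, hx2, Complex.add_im, Complex.im_ofReal_mul]
    simp
  set y : T d L → ℂ := fun k => X k - ((adj k : ℂ) - E - τ * Complex.I) with hy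
  have hw : ∀ k, X k - x ^ 2 * m = (adj k : ℂ) - z + y k := fun k => by
    rw [hz, hy]
    ring
  have hyn : ∀ k, ‖y k‖ ≤ Y := hX
  have hyim : ∀ k, (y k).im ≤ 0 := fun k => by
    have h1 : (y k).im = (X k).im + τ := by
      rw [hy]
      simp
    have := hXim k
    linarith
  have hmre : |m.re| ≤ 2 * C₀ := (Complex.abs_re_le_norm m).trans hm1
  have hmim : m.im ≤ 2 * C₀ := ((le_abs_self _).trans (Complex.abs_im_le_norm m)).trans hm1
  have hCx : 2 * C₀ * x ^ 2 ≤ ε₁ / 4 := by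
    have h1 : 2 * C₀ * x ^ 2 ≤ 2 * C₀ * (ε₁ / (8 * C₀)) :=
      mul_le_mul_of_nonneg_left (hxx.trans q2) (by linarith)
    have h2 : 2 * C₀ * (ε₁ / (8 * C₀)) = ε₁ / 4 := by
      field_simp
      norm_num
    linarith
  have hYε₁ : Y ≤ ε₁ / 8 := by
    have h1 : ε₁ / (8 * C₀) ≤ ε₁ / 8 := by
      gcongr
      linarith
    linarith
  have hzE : |z.re - E| ≤ 2 * C₀ * x ^ 2 := by
    rw [zre, add_sub_cancel_left, abs_mul, abs_of_pos hxx0]
    have h1 := mul_le_mul_of_nonneg_left hmre hxx0.le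
    linarith
  have hzim0 : 0 ≤ z.im := by
    rw [zim]
    positivity
  have hmeq' : m = (NN d L : ℂ)⁻¹ * ∑ k, ((adj k : ℂ) - z + y k)⁻¹ +
      (NN d L : ℂ)⁻¹ * ∑ k, r k / ((adj k : ℂ) - z + y k) := by
    conv_lhs => rw [hmeq]
    rw [← mul_add, ← Finset.sum_add_distrib]
    congr 1
    refine Finset.sum_congr rfl fun k _ => ?_
    rw [hw, add_div, one_div]
  rcases le_or_gt Y z.im with hth | hth
  · -- first case
    have P := fun k : T d L => ptA (a := adj k) hY hth (hyn k) (hyim k)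
    have hR' : ‖(NN d L : ℂ)⁻¹ * ∑ k, r k / ((adj k : ℂ) - z + y k)‖ ≤ 4 * ε₀ := by
      refine (NNn _).trans ?_
      simp only [norm_div]
      refine (green' hd (E := z.re) hLY hY2 (c := 1 / 4) (by norm_num)
        (fun k => norm_nonneg (r k)) hr fun k => ?_).trans (le_of_eq (by ring))
      have h1 := (P k).1
      have h2 := J_le' z.re Y hY k
      linarith
    have hzpos : 0 < z.im := hY.trans_le hth
    have hdiff : ‖(NN d L : ℂ)⁻¹ * ∑ k, ((adj k : ℂ) - z + y k)⁻¹ - GG z (0 : T d L) 0‖ ≤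
        4 * (1 + K0) := by
      rw [GG_eq, ← mul_sub, ← Finset.sum_sub_distrib]
      refine (NNn _).trans ?_
      have h1 : (NN d L)⁻¹ * ∑ k : T d L, ‖((adj k : ℂ) - z + y k)⁻¹ - ((adj k : ℂ) - z)⁻¹‖ ≤
          4 * (Y / z.im) * (GG z (0 : T d L) 0).im := by
        rw [GG_im]
        calc _ ≤ (NN d L)⁻¹ * ∑ k : T d L, 4 * (Y / z.im) * (z.im / ‖(adj k : ℂ) - z‖ ^ 2) := by
              gcongr with k
              exact (P k).2.2.2.1
          _ = _ := by
              rw [← Finset.mul_sum]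
              ring
      have h2 : (GG z (0 : T d L) 0).im ≤ 1 + K0 :=
        ((le_abs_self _).trans (Complex.abs_im_le_norm _)).trans (F0 z hth)
      have h3 : Y / z.im ≤ 1 := (div_le_one hzpos).2 hth
      have h4 : 0 < Y / z.im := by positivity
      have h5 : 4 * (Y / z.im) * (GG z (0 : T d L) 0).im ≤ 4 * (Y / z.im) * (1 + K0) :=
        mul_le_mul_of_nonneg_left h2 (by positivity)
      have h6 : 4 * (Y / z.im) * (1 + K0) ≤ 4 * 1 * (1 + K0) := by gcongr
      linarith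
    constructor
    · have h1 := norm_add_le ((NN d L : ℂ)⁻¹ * ∑ k, ((adj k : ℂ) - z + y k)⁻¹)
        ((NN d L : ℂ)⁻¹ * ∑ k, r k / ((adj k : ℂ) - z + y k))
      rw [← hmeq'] at h1
      have h2 := norm_add_le ((NN d L : ℂ)⁻¹ * ∑ k, ((adj k : ℂ) - z + y k)⁻¹ -
        GG z (0 : T d L) 0) (GG z (0 : T d L) 0)
      rw [sub_add_cancel] at h2
      have h3 := F0 z hth
      linarith
    · have h1 : (GG z (0 : T d L) 0).im / 4 ≤
          ((NN d L : ℂ)⁻¹ * ∑ k, ((adj k : ℂ) - z + y k)⁻¹).im := by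
        rw [NNc, GG_im, mul_div_assoc, Finset.sum_div]
        exact mul_le_mul_of_nonneg_left (Finset.sum_le_sum fun k _ => (P k).2.2.2.2)
          (by positivity)
      have h2 : c₁ ≤ (GG z (0 : T d L) 0).im := by
        rcases le_or_gt z.im (ε₁ / 2) with h | h
        · refine (min_le_left _ _).trans (F1 z hth ?_)
          have h3 := Complex.norm_le_abs_re_add_abs_im (z - E)
          simp only [Complex.sub_re, Complex.ofReal_re, Complex.sub_im, Complex.ofReal_im,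
            sub_zero] at h3
          rw [abs_of_nonneg hzim0] at h3
          linarith
        · refine (min_le_right _ _).trans ?_
          rw [GG_im]
          have h3 : ∀ k : T d L, ε₁ / 2 / R ^ 2 ≤ z.im / ‖(adj k : ℂ) - z‖ ^ 2 := fun k => by
            have h4 := (P k).2.2.1
            have h5 : ‖(adj k : ℂ) - z‖ ≤ R := by
              have h6 := Complex.norm_le_abs_re_add_abs_im ((adj k : ℂ) - z)
              simp only [Complex.sub_re, Complex.ofReal_re, Complex.sub_im, Complex.ofReal_im,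
                zero_sub, abs_neg] at h6
              rw [abs_of_nonneg hzim0] at h6
              have h7 := adj_abs k
              have h8 : |adj k - z.re| ≤ |adj k| + |E| + |z.re - E| := by
                have h9 := abs_sub (adj k) z.re
                have h10 := abs_add_le E (z.re - E)
                rw [add_sub_cancel] at h10
                linarith
              have h11 : z.im ≤ 2 + 2 * C₀ * x ^ 2 := by
                rw [zim]
                have h14 := mul_le_mul_of_nonneg_left hmim hxx0.le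
                linarith
              have h12 : x ^ 2 ≤ 1 / 4 := hxx.trans q1
              have h13 : 2 * C₀ * x ^ 2 ≤ 2 * C₀ * (1 / 4) :=
                mul_le_mul_of_nonneg_left h12 (by linarith)
              rw [hR]
              linarith
            gcongr
          calc ε₁ / 2 / R ^ 2 = (NN d L)⁻¹ * ∑ k : T d L, ε₁ / 2 / R ^ 2 := by
                rw [Finset.sum_const, Finset.card_univ, nsmul_eq_mul, card_T]
                field_simp
            _ ≤ _ := mul_le_mul_of_nonneg_left (Finset.sum_le_sum fun k _ => h3 k)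
                (by positivity)
      have h3 : (((NN d L : ℂ)⁻¹ * ∑ k, r k / ((adj k : ℂ) - z + y k))).im ≥ -(4 * ε₀) := by
        have := (abs_le.1 ((Complex.abs_im_le_norm _).trans hR')).1
        exact this
      have h4 : m.im = ((NN d L : ℂ)⁻¹ * ∑ k, ((adj k : ℂ) - z + y k)⁻¹).im +
          ((NN d L : ℂ)⁻¹ * ∑ k, r k / ((adj k : ℂ) - z + y k)).im := by
        rw [← Complex.add_im, ← hmeq']
      linarith
  · -- second case: impossible
    exfalso
    have hτx : ¬ x ^ 2 ≤ τ := by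
      intro h
      have : τ ≤ z.im := by
        rw [zim]
        have := mul_nonneg hxx0.le hm0
        linarith
      linarith
    have hsh' := hsh.resolve_left hτx
    have P := fun k : T d L => ptB (a := adj k) hY hxx0 hc₃ hzim0 hth (hyn k) (hyim k)
      (by linarith) (by
        rcases le_or_gt |adj k - E| ((2 * C₀ + 1) * x ^ 2) with h | h
        · right
          have h1 := hsh' k h
          have h2 : (y k).im = (X k).im + τ := by
            rw [hy]
            simp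
          linarith
        · left
          have h1 := abs_sub_le (adj k) z.re E
          linarith)
    have hR' : ‖(NN d L : ℂ)⁻¹ * ∑ k, r k / ((adj k : ℂ) - z + y k)‖ ≤ ε₀ / cm := by
      refine (NNn _).trans ?_
      simp only [norm_div]
      refine green' hd (E := z.re) hLY hY2 (c := cm) hcm0
        (fun k => norm_nonneg (r k)) hr fun k => ?_
      have h1 := (P k).1
      have h2 := J_le' z.re Y hY k
      refine le_trans ?_ h1
      gcongr
    have hG : ∀ s : ℝ, 0 < s → (GG ((z.re : ℂ) + s * Complex.I) (0 : T d L) 0).im =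
        (NN d L)⁻¹ * ∑ k : T d L, s / ((adj k - z.re) ^ 2 + s ^ 2) := fun s hs => by
      rw [GG_im]
      congr 1
      refine Finset.sum_congr rfl fun k _ => ?_
      have h1 : ((z.re : ℂ) + s * Complex.I).im = s := by simp
      rw [h1]
      congr 1
      rw [← Complex.normSq_eq_norm_sq, Complex.normSq_apply]
      simp
      ring
    have h1 : c₃ / 18 * ((GG ((z.re : ℂ) + Y * Complex.I) (0 : T d L) 0).im -
        2 * (Y / x ^ 2) * (GG ((z.re : ℂ) + (x ^ 2 : ℝ) * Complex.I) (0 : T d L) 0).im) ≤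
          ((NN d L : ℂ)⁻¹ * ∑ k, ((adj k : ℂ) - z + y k)⁻¹).im := by
      rw [NNc, hG _ hY, hG _ hxx0]
      calc _ = (NN d L)⁻¹ * ∑ k : T d L, c₃ / 18 * (Y / ((adj k - z.re) ^ 2 + Y ^ 2) -
            2 * (Y / x ^ 2) * (x ^ 2 / ((adj k - z.re) ^ 2 + (x ^ 2) ^ 2))) := by
            rw [← Finset.mul_sum, Finset.sum_sub_distrib, ← Finset.mul_sum]
            ring
        _ ≤ _ := by
            gcongr with k
            exact (P k).2.2
    have h2 : ca / 2 ≤ (GG ((z.re : ℂ) + Y * Complex.I) (0 : T d L) 0).im := by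
      refine F1 _ (by simp) ?_
      have h3 := Complex.norm_le_abs_re_add_abs_im ((z.re : ℂ) + Y * Complex.I - E)
      simp only [Complex.sub_re, Complex.add_re, Complex.ofReal_re, Complex.sub_im,
        Complex.add_im, Complex.ofReal_im, Complex.re_ofReal_mul, Complex.im_ofReal_mul,
        Complex.I_re, Complex.I_im, mul_zero, mul_one, add_zero, zero_add, sub_zero] at h3
      rw [abs_of_pos hY] at h3
      linarith
    have h3 : (GG ((z.re : ℂ) + (x ^ 2 : ℝ) * Complex.I) (0 : T d L) 0).im ≤ 1 + K0 := by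
      refine ((le_abs_self _).trans (Complex.abs_im_le_norm _)).trans (F0 _ ?_)
      rw [Complex.add_im, Complex.ofReal_im, Complex.im_ofReal_mul, Complex.I_im]
      linarith
    have h4 : m.im = ((NN d L : ℂ)⁻¹ * ∑ k, ((adj k : ℂ) - z + y k)⁻¹).im +
        ((NN d L : ℂ)⁻¹ * ∑ k, r k / ((adj k : ℂ) - z + y k)).im := by
      rw [← Complex.add_im, ← hmeq']
    have h5 := (abs_le.1 ((Complex.abs_im_le_norm _).trans hR')).1
    have h6 : Y / x ^ 2 ≤ ε₀ := by
      rw [div_le_iff₀ hxx0]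
      exact hYx
    have h7 : m.im ≤ ε₀ := by
      have h8 : x ^ 2 * m.im ≤ Y := by
        rw [zim] at hth
        linarith
      have h9 : m.im ≤ Y / x ^ 2 := by
        rw [le_div_iff₀ hxx0]
        linarith
      linarith
    have h8 : 2 * (Y / x ^ 2) * (GG ((z.re : ℂ) + (x ^ 2 : ℝ) * Complex.I) (0 : T d L) 0).im ≤
        2 * ε₀ * (1 + K0) := by
      have h9 : 0 < Y / x ^ 2 := by positivity
      calc _ ≤ 2 * (Y / x ^ 2) * (1 + K0) := by gcongr
        _ ≤ _ := by gcongr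
    have h9 : c₃ / 18 * (ca / 2 - 2 * ε₀ * (1 + K0)) ≤
        ((NN d L : ℂ)⁻¹ * ∑ k, ((adj k : ℂ) - z + y k)⁻¹).im := by
      refine le_trans ?_ h1
      gcongr
    have h10 : ε₀ * B ≤ c₃ * ca / 72 := by
      rw [← le_div_iff₀ hB0]
      exact q4
    have h11 : ε₀ * B = ε₀ + ε₀ / cm + c₃ / 18 * (2 * ε₀ * (1 + K0)) := by
      rw [hB]
      ring
    have h12 : 0 < c₃ * ca := by positivity
    have h13 : c₃ / 18 * (ca / 2 - 2 * ε₀ * (1 + K0)) =
        c₃ * ca / 36 - c₃ / 18 * (2 * ε₀ * (1 + K0)) := by ring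
    linarith

end Pool.Agent.Run7.h298.VI
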